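import Mathlib
import Pool.Agent.H.MP_627409_gt.A

namespace Pool.Agent.H.MP_3fb46c_gt

open MeasureTheory Metric Pool.Agent.H.MP_627409_gt

noncomputable abbrev ν : Measure (sphere (0 : E) 1) := (volume : Measure E).toSphere

lemma hd_slice (F : ℝ × E → ℝ) (hF : ContDiff ℝ 1 F) (t : ℝ) (x : E) :
    HasDerivAt (fun t => F (t, x)) (fderiv ℝ F (t, x) (1, 0)) t := by
  have h1 : HasDerivAt (fun t : ℝ => (t, x)) ((1 : ℝ), (0 : E)) t :=
    (hasDerivAt_id t).prodMk (hasDerivAt_const t x)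
  exact (hF.differentiable (by simp) (t, x)).hasFDerivAt.comp_hasDerivAt t h1

lemma hd_int (F : ℝ × E → ℝ) (hF : ContDiff ℝ 1 F) :
    HasDerivAt (fun t => ∫ x : sphere (0 : E) 1, F (t, x.1) ∂ν)
      (∫ x : sphere (0 : E) 1, fderiv ℝ F (0, x.1) (1, 0) ∂ν) 0 := by
  have hc : Continuous fun p : ℝ × sphere (0 : E) 1 => fderiv ℝ F (p.1, p.2.1) (1, 0) := by
    have := hF.continuous_fderiv (by simp)
    fun_prop
  have hK : IsCompact (closedBall (0 : ℝ) 1 ×ˢ (Set.univ : Set (sphere (0 : E) 1))) :=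
    (isCompact_closedBall 0 1).prod isCompact_univ
  obtain ⟨C, hC⟩ := hK.exists_bound_of_continuousOn hc.continuousOn
  have hFc := hF.continuous
  refine (hasDerivAt_integral_of_dominated_loc_of_deriv_le (μ := ν)
    (F := fun t (x : sphere (0 : E) 1) => F (t, x.1))
    (F' := fun t (x : sphere (0 : E) 1) => fderiv ℝ F (t, x.1) (1, 0)) (bound := fun _ => C)
    (closedBall_mem_nhds (0 : ℝ) one_pos) ?_ ?_ ?_ ?_ (integrable_const _) ?_).2
  · exact Filter.Eventually.of_forall fun t => Continuous.aestronglyMeasurable (by fun_prop)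
  · exact Continuous.integrable_of_hasCompactSupport (by fun_prop)
      (HasCompactSupport.of_compactSpace _)
  · exact Continuous.aestronglyMeasurable (hc.comp (Continuous.prodMk_right 0))
  · exact Filter.Eventually.of_forall fun x t ht => hC (t, x) ⟨ht, trivial⟩
  · exact Filter.Eventually.of_forall fun x t _ => hd_slice F hF t x.1

noncomputable def sph (L : E ≃ₗᵢ[ℝ] E) : sphere (0 : E) 1 ≃ₜ sphere (0 : E) 1 where
  toFun x := ⟨L x.1, by simp⟩
  invFun x := ⟨L.symm x.1, by simp⟩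
  left_inv x := by simp
  right_inv x := by simp
  continuous_toFun := by fun_prop
  continuous_invFun := by fun_prop

lemma int_iso (L : E ≃ₗᵢ[ℝ] E) (h : E → ℝ) :
    ∫ x : sphere (0 : E) 1, h (L x.1) ∂ν = ∫ x : sphere (0 : E) 1, h x.1 ∂ν := by
  let e : sphere (0 : E) 1 ≃ᵐ sphere (0 : E) 1 := (sph L).toMeasurableEquiv
  have he : Measure.map e ν = ν := by
    ext s hs
    rw [e.map_apply, Measure.toSphere_apply' _ (e.measurable hs), Measure.toSphere_apply' _ hs]
    congr 1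
    have hL : MeasurePreserving L.toHomeomorph.toMeasurableEquiv volume volume :=
      L.measurePreserving
    refine Eq.trans ?_ (hL.measure_preimage_equiv _)
    congr 1
    ext x
    simp only [Set.mem_smul, Set.mem_image, Set.mem_preimage]
    constructor
    · rintro ⟨t, ht, _, ⟨u, hu, rfl⟩, rfl⟩
      exact ⟨t, ht, _, ⟨e u, hu, rfl⟩, by simp [e, sph]⟩
    · rintro ⟨t, ht, _, ⟨u, hu, rfl⟩, h⟩
      refine ⟨t, ht, _, ⟨e.symm u, by simpa using hu, rfl⟩, ?_⟩
      apply L.injective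
      simpa [e, sph] using h
  have h1 := integral_map_equiv (μ := ν) e fun u => h u.1
  rw [he] at h1
  exact h1.symm

noncomputable def JJ : Fin 3 → E → E := ![J0, J1, J2]

lemma three (j : Fin 3) : j = 0 ∨ j = 1 ∨ j = 2 := by
  fin_cases j <;> simp

@[fun_prop] lemma cdJ (j : Fin 3) {k : WithTop ℕ∞} : ContDiff ℝ k (JJ j) := by
  rcases three j with rfl | rfl | rfl
  · exact cd0
  · exact cd1
  · exact cd2

noncomputable def rot (j : Fin 3) (θ : ℝ) (x : E) : E := Real.cos θ • x + Real.sin θ • JJ j x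

lemma norm_rot (j : Fin 3) (θ : ℝ) (x : E) : ‖rot j θ x‖ = ‖x‖ := by
  have h := Real.cos_sq_add_sin_sq θ
  have : ‖rot j θ x‖ ^ 2 = ‖x‖ ^ 2 := by
    rw [← real_inner_self_eq_norm_sq, ← real_inner_self_eq_norm_sq, inn, inn]
    rcases three j with rfl | rfl | rfl <;> simp [rot, JJ, J0, J1, J2] <;>
      linear_combination (x 0 * x 0 + x 1 * x 1 + x 2 * x 2 + x 3 * x 3) * h
  exact (sq_eq_sq₀ (norm_nonneg _) (norm_nonneg _)).1 this

noncomputable def rotL (j : Fin 3) (θ : ℝ) : E →ₗᵢ[ℝ] E where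
  toFun := rot j θ
  map_add' x y := by
    ext i
    rcases three j with rfl | rfl | rfl <;> fin_cases i <;> simp [rot, JJ, J0, J1, J2] <;> ring
  map_smul' c x := by
    ext i
    rcases three j with rfl | rfl | rfl <;> fin_cases i <;> simp [rot, JJ, J0, J1, J2] <;> ring
  norm_map' := norm_rot j θ

lemma hd_rot (j : Fin 3) (x : E) : HasDerivAt (fun θ => rot j θ x) (JJ j x) 0 := by
  have h := ((Real.hasDerivAt_cos 0).smul_const x).add ((Real.hasDerivAt_sin 0).smul_const (JJ j x))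
  refine HasDerivAt.congr_deriv h ?_
  simp

lemma rot0 (j : Fin 3) (x : E) : rot j 0 x = x := by simp [rot]

lemma ibp (h : E → ℝ) (hh : ContDiff ℝ 1 h) (j : Fin 3) :
    ∫ x : sphere (0 : E) 1, D (JJ j x.1) h x.1 ∂ν = 0 := by
  have hF : ContDiff ℝ 1 fun p : ℝ × E => h (rot j p.1 p.2) := by
    unfold rot
    fun_prop
  have h1 := hd_int _ hF
  have e : (fun t => ∫ x : sphere (0 : E) 1, h (rot j t x.1) ∂ν)
      = fun _ => ∫ x : sphere (0 : E) 1, h x.1 ∂ν := by
    funext t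
    exact int_iso ((rotL j t).toLinearIsometryEquiv rfl) h
  simp only at h1
  rw [e] at h1
  rw [← h1.unique (hasDerivAt_const _ _)]
  congr 1
  funext x
  refine HasDerivAt.unique ?_ (hd_slice _ hF 0 x.1)
  have h2 : HasFDerivAt h (fderiv ℝ h x.1) (rot j 0 x.1) := by
    rw [rot0]
    exact (hh.differentiable (by simp) x.1).hasFDerivAt
  exact h2.comp_hasDerivAt 0 (hd_rot j x.1)

lemma tang (f g : E → E) (x : E) (hx : x ∈ sphere (0 : E) 1) (hf : DifferentiableAt ℝ f x)
    (hg : DifferentiableAt ℝ g x) (e : ∀ y ∈ sphere (0 : E) 1, f y = g y) (j : Fin 3) :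
    fderiv ℝ f x (JJ j x) = fderiv ℝ g x (JJ j x) := by
  have h1 : HasFDerivAt f (fderiv ℝ f x) (rot j 0 x) := by
    rw [rot0]
    exact hf.hasFDerivAt
  have h2 : HasFDerivAt g (fderiv ℝ g x) (rot j 0 x) := by
    rw [rot0]
    exact hg.hasFDerivAt
  have h3 := h1.comp_hasDerivAt 0 (hd_rot j x)
  have h4 := h2.comp_hasDerivAt 0 (hd_rot j x)
  refine h3.unique (h4.congr_of_eventuallyEq (Filter.Eventually.of_forall fun θ => ?_))
  apply e
  simpa [norm_rot] using hx

end Pool.Agent.H.MP_3fb46c_gt
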