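import Mathlib
import Pool.Agent.H.MP_3fb46c_gt.A

namespace Pool.Agent.H.MP_3fb46c_gt

open MeasureTheory Metric Pool.Agent.H.MP_627409_gt

noncomputable abbrev PP (x : E) : E →L[ℝ] E :=
  ContinuousLinearMap.id ℝ E - (innerSL ℝ x).smulRight x

def dd (m : Fin 3 → Fin 3 → ℝ) : ℝ :=
  1 + (m 0 0 ^ 2 + m 0 1 ^ 2 + m 0 2 ^ 2 + m 1 0 ^ 2 + m 1 1 ^ 2 + m 1 2 ^ 2 + m 2 0 ^ 2
    + m 2 1 ^ 2 + m 2 2 ^ 2)
  + ((m 1 1 * m 2 2 - m 1 2 * m 2 1) ^ 2 + (m 1 2 * m 2 0 - m 1 0 * m 2 2) ^ 2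
    + (m 1 0 * m 2 1 - m 1 1 * m 2 0) ^ 2 + (m 2 1 * m 0 2 - m 2 2 * m 0 1) ^ 2
    + (m 2 2 * m 0 0 - m 2 0 * m 0 2) ^ 2 + (m 2 0 * m 0 1 - m 2 1 * m 0 0) ^ 2
    + (m 0 1 * m 1 2 - m 0 2 * m 1 1) ^ 2 + (m 0 2 * m 1 0 - m 0 0 * m 1 2) ^ 2
    + (m 0 0 * m 1 1 - m 0 1 * m 1 0) ^ 2)
  + (m 0 0 * (m 1 1 * m 2 2 - m 1 2 * m 2 1) + m 0 1 * (m 1 2 * m 2 0 - m 1 0 * m 2 2)
    + m 0 2 * (m 1 0 * m 2 1 - m 1 1 * m 2 0)) ^ 2

lemma dd_pos (m : Fin 3 → Fin 3 → ℝ) : 0 < dd m := by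
  unfold dd
  positivity

lemma PP_apply (x w : E) : PP x w = w - inner ℝ x w • x := by
  simp [PP]

lemma PP_J (x : E) (j : Fin 3) : PP x (JJ j x) = JJ j x := by
  rw [PP_apply, inn]
  rcases three j with rfl | rfl | rfl <;> simp [JJ, J0, J1, J2] <;> left <;> ring

lemma PP_x (x : E) (hx : s x = 1) : PP x x = 0 := by
  rw [PP_apply, inn]
  unfold s at hx
  rw [hx]
  simp

lemma PP_inner (x u w : E) (hx : s x = 1) : inner ℝ (PP x u) (PP x w)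
    = inner ℝ (JJ 0 x) u * inner ℝ (JJ 0 x) w + inner ℝ (JJ 1 x) u * inner ℝ (JJ 1 x) w
      + inner ℝ (JJ 2 x) u * inner ℝ (JJ 2 x) w := by
  simp only [PP_apply, inn]
  simp [JJ, J0, J1, J2]
  unfold s at hx
  linear_combination ((x 0 * u 0 + x 1 * u 1 + x 2 * u 2 + x 3 * u 3)
    * (x 0 * w 0 + x 1 * w 1 + x 2 * w 2 + x 3 * w 3)
    - (u 0 * w 0 + u 1 * w 1 + u 2 * w 2 + u 3 * w 3)) * hx

noncomputable def bb (x : E) : Fin 4 → E := ![x, JJ 0 x, JJ 1 x, JJ 2 x]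

lemma bb_on (x : E) (hx : s x = 1) : Orthonormal ℝ (bb x) := by
  rw [orthonormal_iff_ite]
  intro i j
  unfold s at hx
  rw [inn]
  fin_cases i <;> fin_cases j <;> simp [bb, JJ, J0, J1, J2] <;> linarith

noncomputable def ob (x : E) (hx : s x = 1) : OrthonormalBasis (Fin 4) ℝ E :=
  (basisOfOrthonormalOfCardEqFinrank (bb_on x hx) (by simp)).toOrthonormalBasis
    (by simpa using bb_on x hx)

lemma ob_apply (x : E) (hx : s x = 1) (i : Fin 4) : ob x hx i = bb x i := by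
  simp [ob]

lemma det_eq (x : E) (hx : s x = 1) (A : E →L[ℝ] E) :
    LinearMap.det ((ContinuousLinearMap.id ℝ E +
      (ContinuousLinearMap.adjoint (PP x ∘L A ∘L PP x)) ∘L (PP x ∘L A ∘L PP x) : E →L[ℝ] E) :
        E →ₗ[ℝ] E) = dd (fun k j => inner ℝ (JJ k x) (A (JJ j x))) := by
  rw [← LinearMap.det_toMatrix (ob x hx).toBasis]
  set m : Fin 3 → Fin 3 → ℝ := fun k j => inner ℝ (JJ k x) (A (JJ j x)) with hm
  have h1 : ∀ i j, LinearMap.toMatrix (ob x hx).toBasis (ob x hx).toBasis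
      ((ContinuousLinearMap.id ℝ E +
      (ContinuousLinearMap.adjoint (PP x ∘L A ∘L PP x)) ∘L (PP x ∘L A ∘L PP x) : E →L[ℝ] E) :
        E →ₗ[ℝ] E) i j = (if i = j then 1 else 0)
        + inner ℝ (PP x (A (PP x (bb x i)))) (PP x (A (PP x (bb x j)))) := by
    intro i j
    rw [LinearMap.toMatrix_apply, OrthonormalBasis.coe_toBasis_repr_apply,
      OrthonormalBasis.repr_apply_apply, OrthonormalBasis.coe_toBasis, ob_apply, ob_apply,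
      ContinuousLinearMap.coe_coe, add_apply, inner_add_right, ContinuousLinearMap.comp_apply,
      ContinuousLinearMap.adjoint_inner_right, ← orthonormal_iff_ite.1 (bb_on x hx) i j]
    rfl
  have h2 : LinearMap.toMatrix (ob x hx).toBasis (ob x hx).toBasis
      ((ContinuousLinearMap.id ℝ E +
      (ContinuousLinearMap.adjoint (PP x ∘L A ∘L PP x)) ∘L (PP x ∘L A ∘L PP x) : E →L[ℝ] E) :
        E →ₗ[ℝ] E) = !![1, 0, 0, 0;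
          0, 1 + (m 0 0 * m 0 0 + m 1 0 * m 1 0 + m 2 0 * m 2 0),
            m 0 0 * m 0 1 + m 1 0 * m 1 1 + m 2 0 * m 2 1,
            m 0 0 * m 0 2 + m 1 0 * m 1 2 + m 2 0 * m 2 2;
          0, m 0 1 * m 0 0 + m 1 1 * m 1 0 + m 2 1 * m 2 0,
            1 + (m 0 1 * m 0 1 + m 1 1 * m 1 1 + m 2 1 * m 2 1),
            m 0 1 * m 0 2 + m 1 1 * m 1 2 + m 2 1 * m 2 2;
          0, m 0 2 * m 0 0 + m 1 2 * m 1 0 + m 2 2 * m 2 0,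
            m 0 2 * m 0 1 + m 1 2 * m 1 1 + m 2 2 * m 2 1,
            1 + (m 0 2 * m 0 2 + m 1 2 * m 1 2 + m 2 2 * m 2 2)] := by
    have b0 : PP x (bb x 0) = 0 := PP_x x hx
    have b1 : PP x (bb x 1) = JJ 0 x := PP_J x 0
    have b2 : PP x (bb x 2) = JJ 1 x := PP_J x 1
    have b3 : PP x (bb x 3) = JJ 2 x := PP_J x 2
    ext i j
    rw [h1, PP_inner _ _ _ hx]
    fin_cases i <;> fin_cases j <;>
      simp only [Fin.zero_eta, Fin.mk_one, Fin.reduceFinMk, b0, b1, b2, b3, map_zero,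
        inner_zero_right] <;> simp [hm]
  rw [h2]
  simp [Matrix.det_succ_row_zero, Fin.sum_univ_succ, Fin.succAbove, dd]
  ring

def M0 (a b c : ℝ) : Fin 3 → Fin 3 → ℝ := ![![0, -3 * c, 3 * b], ![-c, 0, 3 * a], ![b, -3 * a, 0]]

def NN (a b c : ℝ) : Fin 3 → Fin 3 → ℝ :=
  ![![0, -c * (1 + 2 * (a * a)), b * (1 + 2 * (a * a))],
    ![-c, 2 * a * b * c, a * (1 + 2 * (a * a) + 2 * (c * c))],
    ![b, -a * (1 + 2 * (a * a) + 2 * (b * b)), -2 * a * b * c]]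

lemma dd_M0 (r a b c : ℝ) (hr : r * r = 1 / 3) (h : a ^ 2 + b ^ 2 + c ^ 2 = 1) :
    dd (fun k j => r * M0 a b c k j) = 16 / 3 * (1 + 2 * (a * a)) := by
  have e : dd (fun k j => r * M0 a b c k j) = 1 + (r * r) * (10 * c ^ 2 + 10 * b ^ 2 + 18 * a ^ 2)
      + (r * r) ^ 2 * (9 * (c ^ 2 + b ^ 2) ^ 2 + 90 * a ^ 2 * (b ^ 2 + c ^ 2) + 81 * a ^ 4) := by
    simp [dd, M0]
    ring
  rw [e, hr]
  have hb : b ^ 2 = 1 - a ^ 2 - c ^ 2 := by linarith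
  rw [hb]
  ring

lemma hd_dd (m : Fin 3 → Fin 3 → ℝ → ℝ) (m' : Fin 3 → Fin 3 → ℝ)
    (h : ∀ k j, HasDerivAt (m k j) (m' k j) 0) (r a b c : ℝ) (hr : r * r = 1 / 3)
    (ha : a ^ 2 + b ^ 2 + c ^ 2 = 1) (h0 : ∀ k j, m k j 0 = r * M0 a b c k j) :
    HasDerivAt (fun t => dd (fun k j => m k j t)) (8 * r * ∑ k, ∑ j, NN a b c k j * m' k j) 0 := by
  have cf : ∀ i j k l i' j' k' l', HasDerivAt (fun t => m i j t * m k l t - m i' j' t * m k' l' t)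
      _ 0 := fun i j k l i' j' k' l' =>
    ((h i j).fun_mul (h k l)).fun_sub ((h i' j').fun_mul (h k' l'))
  have q : ∀ i j, HasDerivAt (fun t => m i j t ^ 2) _ 0 := fun i j => (h i j).fun_pow 2
  have H := ((((((((((q 0 0).fun_add (q 0 1)).fun_add (q 0 2)).fun_add (q 1 0)).fun_add
    (q 1 1)).fun_add (q 1 2)).fun_add (q 2 0)).fun_add (q 2 1)).fun_add (q 2 2)).const_add 1).fun_add
    ((((((((((cf 1 1 2 2 1 2 2 1).fun_pow 2).fun_add ((cf 1 2 2 0 1 0 2 2).fun_pow 2)).fun_add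
      ((cf 1 0 2 1 1 1 2 0).fun_pow 2)).fun_add ((cf 2 1 0 2 2 2 0 1).fun_pow 2)).fun_add
      ((cf 2 2 0 0 2 0 0 2).fun_pow 2)).fun_add ((cf 2 0 0 1 2 1 0 0).fun_pow 2)).fun_add
      ((cf 0 1 1 2 0 2 1 1).fun_pow 2)).fun_add ((cf 0 2 1 0 0 0 1 2).fun_pow 2)).fun_add
      ((cf 0 0 1 1 0 1 1 0).fun_pow 2))
  have H2 := H.fun_add (((((h 0 0).fun_mul (cf 1 1 2 2 1 2 2 1)).fun_add
    ((h 0 1).fun_mul (cf 1 2 2 0 1 0 2 2))).fun_add ((h 0 2).fun_mul (cf 1 0 2 1 1 1 2 0))).fun_pow 2)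
  refine HasDerivAt.congr_deriv H2 ?_
  simp only [h0, Fin.sum_univ_three]
  simp [M0, NN]
  linear_combination (2 * r * (-(3 * c ^ 3 + 3 * b ^ 2 * c + 27 * a ^ 2 * c) * m' 0 1
      + (3 * b * c ^ 2 + 3 * b ^ 3 + 27 * a ^ 2 * b) * m' 0 2
      - 9 * c * (a ^ 2 + b ^ 2 + c ^ 2) * m' 1 0 + 24 * a * b * c * m' 1 1
      + (27 * a * c ^ 2 + 3 * a * b ^ 2 + 27 * a ^ 3) * m' 1 2
      + 9 * b * (a ^ 2 + b ^ 2 + c ^ 2) * m' 2 0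
      - (3 * a * c ^ 2 + 27 * a * b ^ 2 + 27 * a ^ 3) * m' 2 1 - 24 * a * b * c * m' 2 2)) * hr
    + (2 * r * (-c * m' 0 1 + b * m' 0 2 - 3 * c * m' 1 0 + a * m' 1 2 + 3 * b * m' 2 0
      - a * m' 2 1)) * ha

end Pool.Agent.H.MP_3fb46c_gt
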