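import Mathlib
import Pool.Agent.H.MP_3fb46c_gt.B

namespace Pool.Agent.H.MP_3fb46c_gt

open MeasureTheory Metric Pool.Agent.H.MP_627409_gt

noncomputable def VV (x : E) : E := -a0 x • J0 x + a1 x • J1 x + a2 x • J2 x

@[fun_prop] lemma ca0 {k : WithTop ℕ∞} : ContDiff ℝ k a0 := by
  unfold a0
  fun_prop
@[fun_prop] lemma ca1 {k : WithTop ℕ∞} : ContDiff ℝ k a1 := by
  unfold a1
  fun_prop
@[fun_prop] lemma ca2 {k : WithTop ℕ∞} : ContDiff ℝ k a2 := by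
  unfold a2
  fun_prop
@[fun_prop] lemma cVV {k : WithTop ℕ∞} : ContDiff ℝ k VV := by
  unfold VV
  fun_prop

lemma fdVV (x v : E) : fderiv ℝ VV x v = -D v a0 x • J0 x - a0 x • J0 v + D v a1 x • J1 x
    + a1 x • J1 v + D v a2 x • J2 x + a2 x • J2 v := by
  ext i
  rw [fd_comp _ _ _ ((cVV (k := 1)).differentiable (by simp) x)]
  simp only [VV]
  fin_cases i <;>
    simp (disch := fun_prop) [J0, J1, J2, D_coord, D_neg, D_mul, D_add] <;> ring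

lemma mVV (x : E) (k j : Fin 3) :
    inner ℝ (JJ k x) (fderiv ℝ VV x (JJ j x)) = M0 (a0 x) (a1 x) (a2 x) k j * s x := by
  rw [fdVV, inn, Da0, Da1, Da2]
  rcases three j with rfl | rfl | rfl <;> rcases three k with rfl | rfl | rfl <;>
    simp [JJ, J0, J1, J2, M0, a0, a1, a2, s] <;> ring

noncomputable def QQ (x : E) : ℝ := 16 / 3 * (1 + 2 * (a0 x * a0 x))

lemma QQ_pos (x : E) : 0 < QQ x := by
  unfold QQ
  nlinarith [mul_self_nonneg (a0 x)]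

noncomputable def ww (x : E) : ℝ := (√(QQ x))⁻¹

lemma ww_sq (x : E) : QQ x * ww x ^ 2 = 1 := by
  unfold ww
  rw [inv_pow, Real.sq_sqrt (QQ_pos x).le, mul_inv_cancel₀ (QQ_pos x).ne']

@[fun_prop] lemma cww {k : WithTop ℕ∞} : ContDiff ℝ k ww := by
  have h : ContDiff ℝ k QQ := by
    unfold QQ
    fun_prop
  exact (h.sqrt fun x => (QQ_pos x).ne').inv fun x => (Real.sqrt_pos.2 (QQ_pos x)).ne'

@[fun_prop] lemma dww (x : E) : DifferentiableAt ℝ ww x :=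
  (cww (k := 1)).differentiable (by simp) x

lemma Dww (v x : E) : D v ww x = -(32 / 3) * a0 x * D v a0 x * ww x ^ 3 := by
  have h : D v (fun y => 16 / 3 * (1 + 2 * (a0 y * a0 y)) * (ww y * ww y)) x = 0 := by
    have : (fun y => 16 / 3 * (1 + 2 * (a0 y * a0 y)) * (ww y * ww y)) = fun _ => (1 : ℝ) := by
      funext y
      have h := ww_sq y
      unfold QQ at h
      linear_combination h
    rw [this, D_const]
  simp (disch := fun_prop) only [D_mul, D_add, D_const] at h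
  have h2 := ww_sq x
  unfold QQ at h2
  linear_combination (ww x / 2) * h - D v ww x * h2

noncomputable def ps (ψ : E → E) (k : Fin 3) (x : E) : ℝ := inner ℝ (JJ k x) (ψ x)

@[fun_prop] lemma cps (ψ : E → E) (hψ : ContDiff ℝ 1 ψ) (k : Fin 3) : ContDiff ℝ 1 (ps ψ k) :=
  (cdJ k).inner ℝ hψ

lemma fdJ (k : Fin 3) (x v : E) : fderiv ℝ (JJ k) x v = JJ k v := by
  ext i
  rw [fd_comp _ _ _ ((cdJ k (k := 1)).differentiable (by simp) x)]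
  rcases three k with rfl | rfl | rfl <;> fin_cases i <;> simp [JJ, J0, J1, J2, D_coord, D_neg]

lemma Dps (ψ : E → E) (hψ : ContDiff ℝ 1 ψ) (k : Fin 3) (v x : E) :
    D v (ps ψ k) x = inner ℝ (JJ k x) (fderiv ℝ ψ x v) + inner ℝ (JJ k v) (ψ x) := by
  unfold D ps
  rw [fderiv_inner_apply ℝ ((cdJ k (k := 1)).differentiable (by simp) x)
    (hψ.differentiable (by simp) x), fdJ]

def TT (p p0 p1 p2 : ℝ) : Fin 3 → Fin 3 → ℝ := ![![-p, p2, -p1], ![-p2, -p, p0], ![p1, -p0, -p]]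

lemma JJJ (k j : Fin 3) (x u : E) : inner ℝ (JJ k (JJ j x)) u
    = TT (inner ℝ x u) (inner ℝ (JJ 0 x) u) (inner ℝ (JJ 1 x) u) (inner ℝ (JJ 2 x) u) k j := by
  simp only [inn]
  rcases three j with rfl | rfl | rfl <;> rcases three k with rfl | rfl | rfl <;>
    simp [JJ, J0, J1, J2, TT] <;> ring

lemma Ea (x : E) : (D (JJ 0 x) a0 x = 0 ∧ D (JJ 0 x) a1 x = -2 * a2 x ∧ D (JJ 0 x) a2 x = 2 * a1 x)
    ∧ (D (JJ 1 x) a0 x = 2 * a2 x ∧ D (JJ 1 x) a1 x = 0 ∧ D (JJ 1 x) a2 x = -2 * a0 x)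
    ∧ (D (JJ 2 x) a0 x = -2 * a1 x ∧ D (JJ 2 x) a1 x = 2 * a0 x ∧ D (JJ 2 x) a2 x = 0) := by
  simp only [Da0, Da1, Da2, a0, a1, a2]
  refine ⟨⟨?_, ?_, ?_⟩, ⟨?_, ?_, ?_⟩, ⟨?_, ?_, ?_⟩⟩ <;> simp [JJ, J0, J1, J2] <;> ring

noncomputable def hh (ψ : E → E) (j : Fin 3) (x : E) : ℝ :=
  ww x * (NN (a0 x) (a1 x) (a2 x) 0 j * ps ψ 0 x + NN (a0 x) (a1 x) (a2 x) 1 j * ps ψ 1 x
    + NN (a0 x) (a1 x) (a2 x) 2 j * ps ψ 2 x)

lemma chh (ψ : E → E) (hψ : ContDiff ℝ 1 ψ) (j : Fin 3) : ContDiff ℝ 1 (hh ψ j) := by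
  unfold hh
  rcases three j with rfl | rfl | rfl <;> simp [NN] <;> fun_prop

lemma point (ψ : E → E) (hψ : ContDiff ℝ 1 ψ) (x : E) (hx : s x = 1)
    (ho : inner ℝ (VV x) (ψ x) = 0) :
    ww x * ∑ k, ∑ j, NN (a0 x) (a1 x) (a2 x) k j * inner ℝ (JJ k x) (fderiv ℝ ψ x (JJ j x))
      = D (JJ 0 x) (hh ψ 0) x + D (JJ 1 x) (hh ψ 1) x + D (JJ 2 x) (hh ψ 2) x := by
  have dp : ∀ k y, DifferentiableAt ℝ (ps ψ k) y := fun k y =>
    (cps ψ hψ k).differentiable (by simp) y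
  obtain ⟨⟨e1, e2, e3⟩, ⟨e4, e5, e6⟩, ⟨e7, e8, e9⟩⟩ := Ea x
  have h1 := ww_sq x
  have h2 := aa_sq x
  have h3 : -a0 x * ps ψ 0 x + a1 x * ps ψ 1 x + a2 x * ps ψ 2 x = 0 := by
    rw [← ho]
    simp only [VV, ps, inner_add_left, inner_smul_left]
    rfl
  rw [hx] at h2
  unfold QQ at h1
  unfold hh
  simp only [NN, Fin.sum_univ_three, Matrix.cons_val]
  simp (disch := fun_prop) only [D_mul, D_add, D_const, D_neg, Dww, Dps ψ hψ, JJJ, e1, e2, e3, e4,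
    e5, e6, e7, e8, e9, TT, Matrix.cons_val]
  simp only [ps] at h3 ⊢
  linear_combination (16 / 3 * ww x ^ 3 * (4 + 22 * a0 x ^ 2 + 28 * a0 x ^ 4)) * h3
    + (16 / 3 * ww x ^ 3 * inner ℝ (JJ 0 x) (ψ x) * (2 * a0 x + 4 * a0 x ^ 3)) * h2
    + ww x * ((6 * a0 x - 6 * a0 x * a2 x ^ 2 - 6 * a0 x * a1 x ^ 2 + 12 * a0 x ^ 3)
        * inner ℝ (JJ 0 x) (ψ x) + (-4 * a1 x - 18 * a0 x ^ 2 * a1 x) * inner ℝ (JJ 1 x) (ψ x)
        + (-4 * a2 x - 18 * a0 x ^ 2 * a2 x) * inner ℝ (JJ 2 x) (ψ x)) * h1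

end Pool.Agent.H.MP_3fb46c_gt
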