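import Mathlib
import Pool.Agent.H.MP_3fb46c_gt.C

namespace Pool.Agent.H.MP_3fb46c_gt

open MeasureTheory Metric Pool.Agent.H.MP_627409_gt

lemma fd_slice (Ψ : ℝ × E → E) (t : ℝ) (x v : E) (h : DifferentiableAt ℝ Ψ (t, x)) :
    fderiv ℝ (fun y => Ψ (t, y)) x v = fderiv ℝ Ψ (t, x) (0, v) := by
  have h1 : HasFDerivAt (fun y : E => (t, y)) (ContinuousLinearMap.inr ℝ ℝ E) x :=
    hasFDerivAt_prodMk_right t x
  have h2 := h.hasFDerivAt.comp x h1
  have e : (fun y => Ψ (t, y)) = Ψ ∘ fun y : E => (t, y) := rfl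
  rw [e, h2.fderiv]
  simp

lemma hd_mixed (Ψ : ℝ × E → E) (hΨ : ContDiff ℝ 2 Ψ) (x v : E) :
    HasDerivAt (fun t => fderiv ℝ Ψ (t, x) (0, v))
      (fderiv ℝ (fun y => fderiv ℝ Ψ (0, y) (1, 0)) x v) 0 := by
  have h1 : ContDiff ℝ 1 (fderiv ℝ Ψ) := hΨ.fderiv_right (by norm_num)
  have h2 := (h1.differentiable (by simp) (0, x)).hasFDerivAt
  have h3 : HasDerivAt (fun t : ℝ => (t, x)) ((1 : ℝ), (0 : E)) 0 :=
    (hasDerivAt_id 0).prodMk (hasDerivAt_const 0 x)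
  have h4 := (h2.comp_hasDerivAt (0 : ℝ) h3).clm_apply (hasDerivAt_const (0 : ℝ) ((0 : ℝ), v))
  refine HasDerivAt.congr_deriv h4 ?_
  have h5 : HasFDerivAt (fun y : E => ((0 : ℝ), y)) (ContinuousLinearMap.inr ℝ ℝ E) x :=
    hasFDerivAt_prodMk_right 0 x
  have h6 := (h2.comp x h5).clm_apply (hasFDerivAt_const ((1 : ℝ), (0 : E)) x)
  have e : (fun y => fderiv ℝ Ψ (0, y) (1, 0))
      = fun y => (fderiv ℝ Ψ ∘ fun y : E => ((0 : ℝ), y)) y (1, 0) := rfl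
  rw [e, h6.fderiv]
  have h7 := (hΨ.contDiffAt (x := (0, x))).isSymmSndFDerivAt (by simp)
  simp
  exact h7 _ _

theorem crit (r : ℝ) (hr : r * r = 1 / 3) (Φ : ℝ → E → E)
    (hΦ : ContDiff ℝ 2 fun p : ℝ × E => Φ p.1 p.2)
    (h0 : ∀ x ∈ sphere (0 : E) 1, Φ 0 x = r • VV x) (hr0 : r ≠ 0)
    (hn : ∀ t, ∀ x ∈ sphere (0 : E) 1, ‖Φ t x‖ = r) :
    deriv (fun t : ℝ => ∫ x : sphere (0 : E) 1, √(LinearMap.det ((ContinuousLinearMap.id ℝ E +
      (ContinuousLinearMap.adjoint (PP x.1 ∘L fderiv ℝ (Φ t) x.1 ∘L PP x.1)) ∘L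
        (PP x.1 ∘L fderiv ℝ (Φ t) x.1 ∘L PP x.1) : E →L[ℝ] E) : E →ₗ[ℝ] E)) ∂ν) 0 = 0 := by
  set Ψ : ℝ × E → E := fun p => Φ p.1 p.2 with hΨ
  have h1 : ContDiff ℝ 1 (fderiv ℝ Ψ) := hΦ.fderiv_right (by norm_num)
  have hd : Differentiable ℝ Ψ := hΦ.differentiable (by simp)
  set m : Fin 3 → Fin 3 → ℝ × E → ℝ :=
    fun k j p => inner ℝ (JJ k p.2) (fderiv ℝ Ψ p (0, JJ j p.2)) with hm
  have cm : ∀ k j, ContDiff ℝ 1 (m k j) := fun k j =>
    ContDiff.inner ℝ (by fun_prop) (h1.clm_apply (by fun_prop))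
  set F : ℝ × E → ℝ := fun p => √(dd fun k j => m k j p) with hF
  have cF : ContDiff ℝ 1 F := by
    refine ContDiff.sqrt ?_ fun p => (dd_pos _).ne'
    unfold dd
    fun_prop
  set ψ : E → E := fun y => fderiv ℝ Ψ (0, y) (1, 0) with hψ
  have cψ : ContDiff ℝ 1 ψ := by
    rw [hψ]
    fun_prop
  have e1 : (fun t : ℝ => ∫ x : sphere (0 : E) 1, √(LinearMap.det ((ContinuousLinearMap.id ℝ E +
      (ContinuousLinearMap.adjoint (PP x.1 ∘L fderiv ℝ (Φ t) x.1 ∘L PP x.1)) ∘L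
        (PP x.1 ∘L fderiv ℝ (Φ t) x.1 ∘L PP x.1) : E →L[ℝ] E) : E →ₗ[ℝ] E)) ∂ν)
      = fun t => ∫ x : sphere (0 : E) 1, F (t, x.1) ∂ν := by
    funext t
    congr 1
    funext x
    rw [det_eq _ (s_sphere x)]
    simp only [hF, hm, ← fd_slice Ψ t x.1 _ (hd _)]
    rfl
  rw [e1, (hd_int F cF).deriv]
  have e2 : ∀ x : sphere (0 : E) 1, fderiv ℝ F (0, x.1) (1, 0) = 4 * r *
      (D (JJ 0 x.1) (hh ψ 0) x.1 + D (JJ 1 x.1) (hh ψ 1) x.1 + D (JJ 2 x.1) (hh ψ 2) x.1) := by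
    intro x
    have hx := s_sphere x
    have ha := aa_sq x.1
    rw [hx, one_pow] at ha
    have hV : DifferentiableAt ℝ VV x.1 := (cVV (k := 1)).differentiable (by simp) x.1
    have m0 : ∀ k j, m k j (0, x.1) = r * M0 (a0 x.1) (a1 x.1) (a2 x.1) k j := by
      intro k j
      simp only [hm, ← fd_slice Ψ 0 x.1 _ (hd _)]
      rw [tang (fun y => Ψ (0, y)) (fun y => r • VV y) x.1 x.2 (by fun_prop) (by fun_prop) h0,
        fderiv_fun_const_smul hV, smul_apply, real_inner_smul_right, mVV, hx, mul_one]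
    have hmd : ∀ k j, HasDerivAt (fun t => m k j (t, x.1))
        (inner ℝ (JJ k x.1) (fderiv ℝ ψ x.1 (JJ j x.1))) 0 := by
      intro k j
      have := (hasDerivAt_const (0 : ℝ) (JJ k x.1)).inner ℝ (hd_mixed Ψ hΦ x.1 (JJ j x.1))
      refine HasDerivAt.congr_deriv this ?_
      simp [hψ]
    have h2 := (hd_dd (fun k j t => m k j (t, x.1)) _ hmd r _ _ _ hr ha m0).sqrt (dd_pos _).ne'
    have ho : inner ℝ (VV x.1) (ψ x.1) = 0 := by
      have h3 : HasDerivAt (fun t : ℝ => (t, x.1)) ((1 : ℝ), (0 : E)) 0 :=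
        (hasDerivAt_id 0).prodMk (hasDerivAt_const 0 x.1)
      have h4 : HasDerivAt (fun t => Φ t x.1) (ψ x.1) 0 := by
        have := (hd (0, x.1)).hasFDerivAt.comp_hasDerivAt (0 : ℝ) h3
        exact this
      have h5 := h4.inner ℝ h4
      have e : (fun t => inner ℝ (Φ t x.1) (Φ t x.1)) = fun _ => r ^ 2 := by
        funext t
        rw [real_inner_self_eq_norm_sq, hn t x.1 x.2]
      rw [e] at h5
      have h6 := h5.unique (hasDerivAt_const _ _)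
      rw [h0 x.1 x.2, real_inner_smul_left, real_inner_smul_right, real_inner_comm] at h6
      have : r * inner ℝ (VV x.1) (ψ x.1) = 0 := by
        rw [real_inner_comm]
        linarith
      exact (mul_eq_zero.1 this).resolve_left hr0
    rw [(hd_slice F cF 0 x.1).unique h2, ← point ψ cψ x.1 hx ho]
    simp only [m0]
    rw [dd_M0 r _ _ _ hr ha]
    unfold ww QQ
    ring
  have hi : ∀ j, Integrable (fun x : sphere (0 : E) 1 => D (JJ j x.1) (hh ψ j) x.1) ν := by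
    intro j
    refine Continuous.integrable_of_hasCompactSupport ?_ (HasCompactSupport.of_compactSpace _)
    have c1 := (chh ψ cψ j).continuous_fderiv (by simp)
    have c2 := (cdJ j (k := 1)).continuous
    unfold D
    fun_prop
  simp only [e2]
  have h01 : Integrable (fun x : sphere (0 : E) 1 =>
      D (JJ 0 x.1) (hh ψ 0) x.1 + D (JJ 1 x.1) (hh ψ 1) x.1) ν := (hi 0).add (hi 1)
  rw [integral_const_mul, integral_add h01 (hi 2), integral_add (hi 0) (hi 1),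
    ibp _ (chh ψ cψ 0), ibp _ (chh ψ cψ 1), ibp _ (chh ψ cψ 2)]
  simp

lemma VV_sphere (x : E) (hx : x ∈ sphere (0 : E) 1) : ‖VV x‖ = 1 ∧ inner ℝ x (VV x) = 0 := by
  have h := s_sphere ⟨x, hx⟩
  have h2 := aa_sq x
  simp only at h
  constructor
  · have : ‖VV x‖ ^ 2 = 1 ^ 2 := by
      rw [← real_inner_self_eq_norm_sq, inn]
      have e : VV x 0 * VV x 0 + VV x 1 * VV x 1 + VV x 2 * VV x 2 + VV x 3 * VV x 3
          = (a0 x ^ 2 + a1 x ^ 2 + a2 x ^ 2) * s x := by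
        simp [VV, J0, J1, J2, s]
        ring
      rw [e, h2, h]
      norm_num
    exact (sq_eq_sq₀ (norm_nonneg _) zero_le_one).1 this
  · rw [inn]
    simp [VV, J0, J1, J2]
    ring

lemma not_hopf (r : ℝ) (hr : r ≠ 0) (J : E →L[ℝ] E) :
    ¬ ∀ x ∈ sphere (0 : E) 1, r • VV x = r • J x := by
  intro h
  have h1 := h !₂[1, 0, 0, 0] (by simp [EuclideanSpace.norm_eq, Fin.sum_univ_four])
  have h2 := h !₂[0, 0, 1, 0] (by simp [EuclideanSpace.norm_eq, Fin.sum_univ_four])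
  have h3 := h !₂[3 / 5, 0, 4 / 5, 0] (by
    simp only [mem_sphere_iff_norm, sub_zero, EuclideanSpace.norm_eq, Fin.sum_univ_four]
    simp
    norm_num)
  have e : (!₂[3 / 5, 0, 4 / 5, 0] : E) = (3 / 5 : ℝ) • !₂[1, 0, 0, 0] + (4 / 5 : ℝ) • !₂[0, 0, 1, 0] := by
    ext i
    fin_cases i <;> simp
  rw [smul_right_inj hr] at h1 h2 h3
  have h4 : J !₂[3 / 5, 0, 4 / 5, 0] = (3 / 5 : ℝ) • J !₂[1, 0, 0, 0] + (4 / 5 : ℝ) • J !₂[0, 0, 1, 0] := by
    rw [e, map_add, map_smul, map_smul]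
  rw [← h1, ← h2, ← h3] at h4
  have h5 := congrArg (fun v : E => v 1) h4
  simp [VV, J0, J1, J2, a0, a1, a2] at h5
  norm_num at h5

end Pool.Agent.H.MP_3fb46c_gt
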